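import Pool.Agent.N356.SP.DefsK

set_option autoImplicit false

/-! GK3 of project LK (helper356): `mV ≤ 27/16 * mQ`. -/

namespace Pool.Agent.N49.LK

open Finset Pool.Agent.H384R3.SPk Pool.Agent.N356.SP

variable {Γ : Type*} [AddCommGroup Γ]

open Classical in
/-- correction term of a pair of classes -/
noncomputable def gD (θ : Γ → Γ → ℝ) (m : Γ → ℝ) (s t : Γ) : ℝ :=
  if t ≠ s ∧ t ≠ -s then (θ s t ^ 2 - 27 / 16) * (m s * m t * m (-s) * m (-t)) else 0

open Classical in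
lemma point_le {C : Finset Γ} {θ : Γ → Γ → ℝ} (h : GoodC C θ) (m : Γ → ℝ) (hm : ∀ v, 0 ≤ m v)
    {s t u v : Γ} (hs : s ∈ C) (ht : t ∈ C) (hu : u ∈ C) (hv : v ∈ C) :
    (if s + t + u + v = 0 then θ s t * θ u v * (m s * m t * m u * m v) else 0) ≤
      27 / 16 * (if s + t + u + v = 0 ∧ t ≠ s ∧ t ≠ -s ∧ v ≠ u ∧ v ≠ -u then
        m s * m t * m u * m v else 0) +
      ((if u = -s ∧ v = -t then gD θ m s t else 0) +
        (if u = -t ∧ v = -s then gD θ m s t else 0)) := by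
  by_cases hts : t = s
  · subst hts
    simp [gD, h.self]
  by_cases hts' : t = -s
  · subst hts'
    simp [gD, h.anti]
  have hD : gD θ m s t = (θ s t ^ 2 - 27 / 16) * (m s * m t * m (-s) * m (-t)) := by
    simp [gD, hts, hts']
  by_cases h1 : u = -s ∧ v = -t
  · obtain ⟨rfl, rfl⟩ := h1
    have h2 : ¬ (-s = -t ∧ -t = -s) := fun hh => hts (neg_injective hh.2)
    have h3 : s + t + -s + -t = 0 := by abel
    have h4 : -t ≠ -s := fun hh => hts (neg_injective hh)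
    have h5 : -t ≠ - -s := fun hh => hts' (by rw [neg_neg] at hh; rw [← hh, neg_neg])
    rw [if_pos h3, if_pos ⟨h3, hts, hts', h4, h5⟩, if_pos ⟨rfl, rfl⟩, if_neg h2, hD, h.even]
    apply le_of_eq
    ring
  by_cases h1' : u = -t ∧ v = -s
  · obtain ⟨rfl, rfl⟩ := h1'
    have h3 : s + t + -t + -s = 0 := by abel
    have h4 : -s ≠ -t := fun hh => hts (neg_injective hh).symm
    have h5 : -s ≠ - -t := fun hh => hts' (by rw [neg_neg] at hh; exact hh.symm)
    rw [if_pos h3, if_pos ⟨h3, hts, hts', h4, h5⟩, if_neg h1, if_pos ⟨rfl, rfl⟩, hD, h.symm (-s) (-t),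
      h.even]
    apply le_of_eq
    ring
  rw [if_neg h1, if_neg h1', add_zero, add_zero]
  by_cases h0 : s + t + u + v = 0
  swap
  · rw [if_neg h0, if_neg (fun hh => h0 hh.1)]
    simp
  rw [if_pos h0]
  by_cases hvu : v = u
  · subst hvu
    simp [h.self]
  by_cases hvu' : v = -u
  · subst hvu'
    simp [h.anti]
  rw [if_pos ⟨h0, hts, hts', hvu, hvu'⟩]
  have hw : 0 ≤ m s * m t * m u * m v := by
    have := hm s; have := hm t; have := hm u; have := hm v; positivity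
  refine mul_le_mul_of_nonneg_right ?_ hw
  refine h.quad s hs t ht u hu v hv h0 ?_ ?_ ?_ ?_ ?_ ?_
  · intro hh; apply hts'; rw [hh, neg_neg]
  · intro hh
    apply h1
    refine ⟨by rw [hh, neg_neg], ?_⟩
    have : t + v = 0 := by
      have h6 : s + t + u + v = (s + u) + (t + v) := by abel
      rw [h6, hh] at h0
      simpa using h0
    exact eq_neg_of_add_eq_zero_right this
  · intro hh
    apply h1'
    have : t + u = 0 := by
      have h6 : s + t + u + v = (s + v) + (t + u) := by abel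
      rw [h6, hh] at h0
      simpa using h0
    exact ⟨eq_neg_of_add_eq_zero_right this, by rw [hh, neg_neg]⟩
  · intro hh
    apply h1'
    have : s + v = 0 := by
      have h6 : s + t + u + v = (s + v) + (t + u) := by abel
      rw [h6, hh] at h0
      simpa using h0
    exact ⟨by rw [hh, neg_neg], eq_neg_of_add_eq_zero_right this⟩
  · intro hh
    apply h1
    have : s + u = 0 := by
      have h6 : s + t + u + v = (s + u) + (t + v) := by abel
      rw [h6, hh] at h0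
      simpa using h0
    exact ⟨eq_neg_of_add_eq_zero_right this, by rw [hh, neg_neg]⟩
  · intro hh; apply hvu'; rw [hh, neg_neg]

lemma gD_pair {C : Finset Γ} {θ : Γ → Γ → ℝ} (h : GoodC C θ) (m : Γ → ℝ) (hm : ∀ v, 0 ≤ m v)
    {s t : Γ} (hs : s ∈ C) (ht : t ∈ C) : gD θ m s t + gD θ m s (-t) ≤ 0 := by
  by_cases hts : t = s
  · subst hts
    simp [gD]
  by_cases hts' : t = -s
  · subst hts'
    simp [gD]
  have h1 : -t ≠ s := fun hh => hts' (by rw [← hh, neg_neg])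
  have h2 : -t ≠ -s := fun hh => hts (neg_injective hh)
  rw [gD, gD, if_pos ⟨hts, hts'⟩, if_pos ⟨h1, h2⟩, neg_neg]
  have hsq := h.sq s hs t ht hts hts'
  have hw : 0 ≤ m s * m t * m (-s) * m (-t) := by
    have := hm s; have := hm t; have := hm (-s); have := hm (-t); positivity
  have e : (θ s t ^ 2 - 27 / 16) * (m s * m t * m (-s) * m (-t)) +
      (θ s (-t) ^ 2 - 27 / 16) * (m s * m (-t) * m (-s) * m t) =
      (θ s t ^ 2 + θ s (-t) ^ 2 - 27 / 8) * (m s * m t * m (-s) * m (-t)) := by ring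
  rw [e]
  apply mul_nonpos_of_nonpos_of_nonneg _ hw
  linarith

lemma sum_gD {C : Finset Γ} {θ : Γ → Γ → ℝ} (h : GoodC C θ) (m : Γ → ℝ) (hm : ∀ v, 0 ≤ m v)
    {s : Γ} (hs : s ∈ C) : ∑ t ∈ C, gD θ m s t ≤ 0 := by
  have h1 : ∑ t ∈ C, gD θ m s (-t) = ∑ t ∈ C, gD θ m s t := by
    refine Finset.sum_nbij' (fun t => -t) (fun t => -t) (fun t ht => h.neg t ht)
      (fun t ht => h.neg t ht) ?_ ?_ ?_ <;> intros <;> simp
  have h2 : ∑ t ∈ C, (gD θ m s t + gD θ m s (-t)) ≤ 0 :=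
    Finset.sum_nonpos fun t ht => gD_pair h m hm hs ht
  rw [Finset.sum_add_distrib, h1] at h2
  linarith

open Classical in
omit [AddCommGroup Γ] in
lemma sum_ind {C : Finset Γ} {a b : Γ} (ha : a ∈ C) (hb : b ∈ C) (D : ℝ) :
    (∑ u ∈ C, ∑ v ∈ C, if u = a ∧ v = b then D else 0) = D := by
  rw [Finset.sum_eq_single_of_mem a ha, Finset.sum_eq_single_of_mem b hb]
  · simp
  · intro v _ hv; simp [hv]
  · intro u _ hu; simp [hu]

/-- GK3 -/
theorem mV_le {C : Finset Γ} {θ : Γ → Γ → ℝ} (h : GoodC C θ) (m : Γ → ℝ) (hm : ∀ v, 0 ≤ m v) :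
    mV C θ m ≤ 27 / 16 * mQ C m := by
  classical
  have hin : ∀ s ∈ C, ∀ t ∈ C,
      (∑ u ∈ C, ∑ v ∈ C,
        if s + t + u + v = 0 then θ s t * θ u v * (m s * m t * m u * m v) else 0) ≤
      27 / 16 * (∑ u ∈ C, ∑ v ∈ C,
        if s + t + u + v = 0 ∧ t ≠ s ∧ t ≠ -s ∧ v ≠ u ∧ v ≠ -u then
          m s * m t * m u * m v else 0) + 2 * gD θ m s t := by
    intro s hs t ht
    have h1 : (∑ u ∈ C, ∑ v ∈ C,
        if s + t + u + v = 0 then θ s t * θ u v * (m s * m t * m u * m v) else 0) ≤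
        ∑ u ∈ C, ∑ v ∈ C, (27 / 16 * (if s + t + u + v = 0 ∧ t ≠ s ∧ t ≠ -s ∧ v ≠ u ∧ v ≠ -u then
          m s * m t * m u * m v else 0) +
        ((if u = -s ∧ v = -t then gD θ m s t else 0) +
          (if u = -t ∧ v = -s then gD θ m s t else 0))) :=
      Finset.sum_le_sum fun u hu => Finset.sum_le_sum fun v hv => point_le h m hm hs ht hu hv
    refine h1.trans (le_of_eq ?_)
    simp only [Finset.sum_add_distrib, ← Finset.mul_sum]
    rw [sum_ind (h.neg s hs) (h.neg t ht), sum_ind (h.neg t ht) (h.neg s hs)]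
    ring
  have h2 : mV C θ m ≤ ∑ s ∈ C, ∑ t ∈ C, (27 / 16 * (∑ u ∈ C, ∑ v ∈ C,
        if s + t + u + v = 0 ∧ t ≠ s ∧ t ≠ -s ∧ v ≠ u ∧ v ≠ -u then
          m s * m t * m u * m v else 0) + 2 * gD θ m s t) := by
    rw [mV]
    convert Finset.sum_le_sum fun s hs => Finset.sum_le_sum fun t ht => hin s hs t ht
  have h3 : ∑ s ∈ C, ∑ t ∈ C, (27 / 16 * (∑ u ∈ C, ∑ v ∈ C,
        if s + t + u + v = 0 ∧ t ≠ s ∧ t ≠ -s ∧ v ≠ u ∧ v ≠ -u then
          m s * m t * m u * m v else 0) + 2 * gD θ m s t) =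
      27 / 16 * mQ C m + 2 * ∑ s ∈ C, ∑ t ∈ C, gD θ m s t := by
    rw [mQ]
    simp only [Finset.sum_add_distrib, ← Finset.mul_sum]
  have h4 : ∑ s ∈ C, ∑ t ∈ C, gD θ m s t ≤ 0 :=
    Finset.sum_nonpos fun s hs => sum_gD h m hm hs
  linarith

end Pool.Agent.N49.LK
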